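import Pool.Agent.Helper83.TR.C3b

set_option autoImplicit false

/-!
# Piece C3 (project TR of helper75): certificates from models, the theorem
-/

namespace Pool.Agent.Helper83.TR

open Pool.Agent.NPC Pool.Agent.H75C.HY Pool.Agent.H75C.HY.TR

theorem lk_lt {l : List (ℕ × ℕ)} {d x : ℕ} (h : lk l d x < d) : ∃ p ∈ l, p.1 = x := by
  induction l with
  | nil => rw [lk] at h; omega
  | cons p l ih =>
    rw [lk] at h
    by_cases hx : x = p.1
    · exact ⟨p, List.mem_cons_self, hx.symm⟩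
    · rw [if_neg hx] at h
      obtain ⟨q, hq, h1⟩ := ih h
      exact ⟨q, List.mem_cons_of_mem _ hq, h1⟩

theorem c3 (h1 : C1) (h2 : C2) : C3 := by
  obtain ⟨P, hP⟩ := h2
  refine ⟨(Polynomial.X + 1) * (P.comp (Polynomial.X ^ 2 + 3 * Polynomial.X + 1)) +
    4 * Polynomial.X + 3, ?_⟩
  intro 𝔅 haff φ hφ hsat L hL
  obtain ⟨K₀, g, w, hmem, hval⟩ := hsat
  obtain ⟨K, hK⟩ : ∃ K : Model, K = KO K₀ := ⟨_, rfl⟩
  obtain ⟨g0, o, w0, tm, hv, hw0o⟩ : ∃ (g0 : ℕ → K.W) (o w0 : K.W), TM K g0 o ∧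
      tv K φ g0 w0 = true ∧ w0 ≠ o := by
    subst hK
    refine ⟨fun x => inS K₀ (g x), oo K₀, inS K₀ w, TM_KO K₀ hmem g, ?_, ?_⟩
    · rw [tv_KO]
      exact hval
    · exact fun h => Option.some_ne_none _ h
  clear hK hval hmem
  obtain ⟨n, hn⟩ : ∃ n : ℕ, n = (pr φ).length := ⟨_, rfl⟩
  obtain ⟨A, hA⟩ : ∃ A : Finset ℕ, A = nums φ := ⟨_, rfl⟩
  obtain ⟨JF, hJF⟩ : ∃ JF : List (Form 𝔅 × List ℕ), JF = ks φ [] := ⟨_, rfl⟩
  have hAc : A.card ≤ n := by rw [hA, hn]; exact card_nums φ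
  have hmA : ∀ x, x ∈ A ↔ x ∈ (pr φ).map Prod.snd := by
    intro x
    rw [hA]
    unfold nums
    rw [List.mem_toFinset]
  have hJl : JF.length ≤ n := by rw [hJF, hn]; exact length_ks φ []
  have hks : ∀ p ∈ JF, NoAt p.1 ∧ (pr p.1).Sublist (pr φ) ∧
      p.2.length + (pr p.1).length ≤ (pr φ).length ∧ (∀ x ∈ p.2, x ∈ (pr φ).map Prod.snd) ∧
      (∀ q ∈ ks p.1 p.2, q ∈ JF) := by
    intro p hp
    rw [hJF] at hp
    obtain ⟨a1, a2, a3, a4, a5⟩ := ks_prop φ [] hφ p hp
    refine ⟨a1, a2, by simpa using a3, fun x hx => ?_, fun q hq => by rw [hJF]; exact a5 q hq⟩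
    rcases a4 x hx with h | h
    · simp at h
    · exact h
  -- the polynomial
  obtain ⟨Nb, hNb⟩ : ∃ Nb : ℕ, Nb = P.eval (n ^ 2 + 3 * n + 1) := ⟨_, rfl⟩
  have hLb : (n + 1) * Nb + 4 * n + 3 ≤ L := by
    refine le_trans (le_of_eq ?_) hL
    rw [← hn]
    simp only [Polynomial.eval_add, Polynomial.eval_mul, Polynomial.eval_comp, Polynomial.eval_pow,
      Polynomial.eval_X, Polynomial.eval_one, Polynomial.eval_ofNat]
    rw [hNb]
  -- the representatives
  obtain ⟨RS, r1, r2, r3, r4, r5⟩ := reps (K := K) w0 (A.toList.map K.nm ++ A.toList.map g0)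
  have hRl : RS.length ≤ 1 + 2 * n := by
    rw [List.length_append, List.length_map, List.length_map, Finset.length_toList] at r2
    omega
  have hRo : ∀ s ∈ RS, s ≠ o := by
    intro s hs
    rcases r5 s hs with h | h
    · rw [h]; exact hw0o
    · rcases List.mem_append.1 h with h | h
      · obtain ⟨i, _, rfl⟩ := List.mem_map.1 h
        exact tm.nm i
      · obtain ⟨i, _, rfl⟩ := List.mem_map.1 h
        exact tm.fr i
  -- names
  have hNames : ∀ p ∈ (φ, []) :: JF, NoAt p.1 ∧ Names A p.1 ∧ ∀ x ∈ p.2, x ∈ A := by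
    intro p hp
    rcases List.mem_cons.1 hp with rfl | hp
    · refine ⟨hφ, by rw [hA]; exact names_nums φ, by simp⟩
    · obtain ⟨a1, a2, a3, a4, a5⟩ := hks p hp
      refine ⟨a1, names_of_pr p.1 fun t ht => ?_, fun x hx => (hmA x).2 (a4 x hx)⟩
      rw [hmA]
      exact List.mem_map_of_mem (a2.subset ht)
  have hsum : A.card + ((φ, []) :: JF).length + (((φ, []) :: JF).map fun p =>
      (pr p.1).length).sum ≤ n ^ 2 + 3 * n + 1 := by
    have a1 : (((φ, []) :: JF).map fun p : Form 𝔅 × List ℕ => (pr p.1).length).sum ≤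
        (((φ, []) :: JF).map fun p : Form 𝔅 × List ℕ => (pr p.1).length).length • n := by
      refine List.sum_le_card_nsmul _ _ fun x hx => ?_
      obtain ⟨p, hp, rfl⟩ := List.mem_map.1 hx
      rcases List.mem_cons.1 hp with rfl | hp
      · exact hn.ge
      · rw [hn]
        exact (hks p hp).2.1.length_le
    rw [List.length_map, List.length_cons, smul_eq_mul] at a1
    rw [List.length_cons]
    have a2 : (JF.length + 1) * n ≤ (n + 1) * n := Nat.mul_le_mul_right _ (by omega)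
    have a3 : (n + 1) * n = n ^ 2 + n := by ring
    omega
  -- the concrete clusters
  have hC : ∀ s : K.W, s ≠ o → ∃ c : Cl, Clok c ∧ N c ≤ Nb ∧
      (c.2.1.2.1.length ≤ A.card * N c ∧ ∀ p ∈ c.2.1.2.1, p.1 ∈ A ∧ p.2 < N c) ∧
      (c.2.1.2.2.length ≤ A.card ∧ ∀ p ∈ c.2.1.2.2, p.1 ∈ A ∧ p.2 < N c ∧ K.nm p.1 ∈ clu K s) ∧
      (c.2.2.length ≤ A.card ∧ ∀ p ∈ c.2.2, p.1 ∈ A ∧ p.2 < N c ∧ g0 p.1 ∈ clu K s) ∧
      ∀ p ∈ (φ, []) :: JF, ∀ b : Bool,
        (∃ u < N c, kv c (Flg K g0 o JF s) p.1 p.2 u = b) ↔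
          ∃ v ∈ clu K s, tv K p.1 (dg g0 o p.2) v = b := by
    intro s hs
    obtain ⟨c, c1, c2, c3, c4, c5, c6, c7, c8, c9, c10⟩ := hP 𝔅 haff K (clu K s) (K.R s s)
      (fm (Flg K g0 o JF s)) g0 o A ((φ, []) :: JF) ⟨s, Or.inl rfl⟩ (by
        intro hr
        have key : ∀ u ∈ clu K s, u = s := by
          intro u hu
          rcases hu with hu | hu
          · exact hu
          · exact (hr (tm.tr _ _ _ hu.1 hu.2)).elim
        intro u hu v hv
        rw [key u hu, key v hv]) (by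
        rintro (h | h)
        · exact hs h.symm
        · exact (tm.io s).2 h.1) hNames
    refine ⟨c, c2, c4.trans ((eval_mono P hsum).trans hNb.ge), c5, c6, c7, fun p hp b => ?_⟩
    refine (c10 p hp b).trans (exists_congr fun v => and_congr_right fun hv => ?_)
    have hnp : NoAt p.1 := (hNames p hp).1
    have hneed : Need (JF.map key) p.1 p.2 := by
      rcases List.mem_cons.1 hp with rfl | hp
      · exact need_of JF φ [] hφ fun q hq => by rw [hJF]; exact hq
      · exact need_of JF p.1 p.2 hnp (hks p hp).2.2.2.2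
    have e1 := ce_congr (K := K) (C := clu K s) (r := K.R s s) (J := JF.map key)
      (fun ψ B hψ hJ => need_of JF ψ B hψ (hks _ (mem_key.1 hJ)).2.2.2.2)
      (m := fm (Flg K g0 o JF s)) (m' := upf K g0 o s)
      (fun ψ B b hJ => by
        unfold fm
        rw [mem_Flg']
        exact and_iff_right (mem_key.1 hJ)) p.1 hnp p.2 hneed (dg g0 o p.2) v
    have e2 := h1 𝔅 K g0 o tm s p.1 hnp p.2 (dg g0 o p.2) (fun x hx => by
      right
      unfold dg
      rw [if_pos hx]) (fun x hx => by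
      unfold dg
      rw [if_neg hx]) v hv
    rw [e1, e2]
  choose! cc hcc using hC
  have D : Dta K g0 o JF RS cc φ :=
    { tm := tm
      nφ := hφ
      noJ := fun p hp => (hks p hp).1
      clJ := fun p hp => (hks p hp).2.2.2.2
      clφ := fun q hq => by rw [hJF]; exact hq
      rso := hRo
      rsp := r3
      cok := fun s hs => (hcc s hs).1
      kvs := fun s hs => (hcc s hs).2.2.2.2.2 }
  -- the sizes
  have hNL : Nb ≤ L := by nlinarith
  have hnL : n ≤ L := by nlinarith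
  have hvl : ∀ l : List (ℕ × ℕ), ∀ M : ℕ, M ≤ L → l.length ≤ L → (∀ p ∈ l, p.1 ∈ A ∧ p.2 < M) →
      vl (pr φ) L l = true := by
    intro l M hM hl h
    unfold vl
    rw [Bool.and_eq_true, decide_eq_true_eq, List.all_eq_true]
    refine ⟨hl, fun p hp => ?_⟩
    rw [Bool.and_eq_true, decide_eq_true_eq, decide_eq_true_eq]
    exact ⟨(hmA _).1 (h p hp).1, (h p hp).2.trans_le hM⟩
  have hvk : ∀ k ∈ JF.map key, vk (pr φ) k = true := by
    intro k hk
    obtain ⟨p, hp, rfl⟩ := List.mem_map.1 hk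
    obtain ⟨a1, a2, a3, a4, a5⟩ := hks p hp
    unfold vk key
    simp only [Bool.and_eq_true, decide_eq_true_eq, List.all_eq_true]
    exact ⟨⟨⟨by omega, fun t ht => a2.subset ht⟩, by omega⟩, fun x hx => a4 x hx⟩
  have hvsp : ∀ u, u ≠ o → vsp (pr φ) L (cc u, Zs K o RS u, Flg K g0 o JF u) = true := by
    intro u hu
    obtain ⟨b1, b2, b3, b4, b5, b6⟩ := hcc u hu
    have hM : N (cc u) ≤ L := b2.trans hNL
    have hA1 : A.card * N (cc u) ≤ L := by
      have : A.card * N (cc u) ≤ n * Nb := Nat.mul_le_mul hAc b2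
      nlinarith
    unfold vsp vcl vz vf
    simp only [Bool.and_eq_true, decide_eq_true_eq, List.all_eq_true]
    refine ⟨⟨⟨⟨⟨hM, hvl _ _ hM (b3.1.trans hA1) b3.2⟩, hvl _ _ hM (by omega)
      fun p hp => ⟨(b4.2 p hp).1, (b4.2 p hp).2.1⟩⟩, hvl _ _ hM (by omega)
      fun p hp => ⟨(b5.2 p hp).1, (b5.2 p hp).2.1⟩⟩, ?_, ?_⟩, ?_, ?_⟩
    · have : (Zs K o RS u).length ≤ RS.length := by
        unfold Zs
        refine (List.length_filter_le _ _).trans ?_
        rw [List.length_range]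
      nlinarith
    · intro z hz
      have := (mem_Zs.1 hz).1
      nlinarith
    · have := length_Flg (K := K) (g0 := g0) (o := o) (JF := JF) (s := u)
      nlinarith
    · intro f hf
      obtain ⟨ψ, B, b, rfl, h3, _⟩ := mem_Flg.1 hf
      exact hvk _ (mem_key.2 h3)
  -- the named states
  have hcov : ∀ i ∈ A, ∀ u : K.W, (K.nm i ∈ clu K u ∨ g0 i ∈ clu K u) → ∃ s ∈ RS, u ∈ clu K s := by
    rintro i hi u (h | h)
    · obtain ⟨a, ha, h3⟩ := r4 (K.nm i) (List.mem_append_left _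
        (List.mem_map_of_mem (Finset.mem_toList.2 hi)))
      exact ⟨a, ha, clu_trans tm.tr h3 (clu_symm h)⟩
    · obtain ⟨a, ha, h3⟩ := r4 (g0 i) (List.mem_append_right _
        (List.mem_map_of_mem (Finset.mem_toList.2 hi)))
      exact ⟨a, ha, clu_trans tm.tr h3 (clu_symm h)⟩
  obtain ⟨v0, hcert⟩ := cert_of D (fun c Z m => vsp (pr φ) L (c, Z, m) = true) hvsp
    (by
      intro u hu hns
      obtain ⟨b1, b2, b3, b4, b5, b6⟩ := hcc u hu
      constructor
      · rw [List.eq_nil_iff_forall_not_mem]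
        intro p hp
        obtain ⟨s, hs, h3⟩ := hcov p.1 (b4.2 p hp).1 u (Or.inl (b4.2 p hp).2.2)
        exact hns s hs h3
      · rw [List.eq_nil_iff_forall_not_mem]
        intro p hp
        obtain ⟨s, hs, h3⟩ := hcov p.1 (b5.2 p hp).1 u (Or.inr (b5.2 p hp).2.2)
        exact hns s hs h3)
    (by
      intro u hu i hi
      obtain ⟨p, hp, rfl⟩ := lk_lt hi
      exact ((hcc u hu).2.2.2.1.2 p hp).2.2)
    (by
      intro u hu i hi
      obtain ⟨p, hp, rfl⟩ := lk_lt hi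
      exact ((hcc u hu).2.2.2.2.1.2 p hp).2.2)
    L (by nlinarith) r1 hv
  refine ⟨JF.map key, SCo K g0 o JF RS cc, v0, hcert, ?_, ?_, hvk, ?_⟩
  · rw [List.length_map]
    exact hJl.trans hnL
  · unfold SCo
    rw [List.length_map]
    nlinarith
  · intro s hs
    unfold SCo at hs
    obtain ⟨t, ht, rfl⟩ := List.mem_map.1 hs
    exact hvsp t (hRo t ht)

end Pool.Agent.Helper83.TR
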