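import Pool.Agent.H75C.HY.TR
import Pool.Agent.H75C.HY.Read

set_option autoImplicit false

/-!
# Piece C3 (project TR of helper75): certificates from models
-/

namespace Pool.Agent.Helper83.TR

open Pool.Agent.NPC Pool.Agent.H75C.HY Pool.Agent.H75C.HY.TR

variable {𝔅 : Base}

theorem pr_inj {φ ψ : Form 𝔅} (h : pr φ = pr ψ) : φ = ψ :=
  (pr_unique φ ψ [] [] (by rw [h])).1

/-! ### The list of the keys -/

/-- the arguments of `◇` and `□` with the variables bound there -/
def ks : Form 𝔅 → List ℕ → List (Form 𝔅 × List ℕ)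
  | .prop _, _ => []
  | .nom _, _ => []
  | .var _, _ => []
  | .app _ φ, B => (List.ofFn fun i => ks (φ i) B).flatten
  | .dia φ, B => (φ, B) :: ks φ B
  | .box φ, B => (φ, B) :: ks φ B
  | .bind x φ, B => ks φ (x :: B)
  | .atNom _ _, _ => []
  | .atVar _ _, _ => []

theorem mem_ks_app {b : 𝔅.B} {φ : Fin (𝔅.ar b) → Form 𝔅} {B : List ℕ} {p : Form 𝔅 × List ℕ} :
    p ∈ ks (.app b φ) B ↔ ∃ i, p ∈ ks (φ i) B := by
  rw [ks, List.mem_flatten]
  constructor
  · rintro ⟨l, hl, hp⟩
    obtain ⟨i, rfl⟩ := List.mem_ofFn.1 hl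
    exact ⟨i, hp⟩
  · rintro ⟨i, hp⟩
    exact ⟨_, List.mem_ofFn.2 ⟨i, rfl⟩, hp⟩

theorem sub_app (b : 𝔅.B) (φ : Fin (𝔅.ar b) → Form 𝔅) (i : Fin (𝔅.ar b)) :
    (pr (φ i)).Sublist (pr (.app b φ)) := by
  rw [pr]
  refine List.Sublist.cons _ ?_
  refine List.Sublist.trans ?_ (List.sublist_append_left _ _)
  refine List.Sublist.trans (List.sublist_append_left (pr (φ i)) [((4, (i : ℕ)) : Tok)]) ?_
  exact List.sublist_flatten_of_mem (List.mem_ofFn.2 ⟨i, rfl⟩)

theorem ks_prop (φ : Form 𝔅) : ∀ (B : List ℕ), NoAt φ → ∀ p ∈ ks φ B, NoAt p.1 ∧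
    (pr p.1).Sublist (pr φ) ∧ p.2.length + (pr p.1).length ≤ B.length + (pr φ).length ∧
    (∀ x ∈ p.2, x ∈ B ∨ x ∈ (pr φ).map Prod.snd) ∧ (∀ q ∈ ks p.1 p.2, q ∈ ks φ B) := by
  induction φ with
  | prop i => intro B _ p hp; simp [ks] at hp
  | nom i => intro B _ p hp; simp [ks] at hp
  | var x => intro B _ p hp; simp [ks] at hp
  | app b φ ih =>
    intro B hφ p hp
    obtain ⟨i, hp⟩ := mem_ks_app.1 hp
    obtain ⟨h1, h2, h3, h4, h5⟩ := ih i B (hφ i) p hp
    have hs := sub_app b φ i
    refine ⟨h1, h2.trans hs, h3.trans (Nat.add_le_add_left hs.length_le _), fun x hx => ?_,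
      fun q hq => mem_ks_app.2 ⟨i, h5 q hq⟩⟩
    rcases h4 x hx with h | h
    · exact Or.inl h
    · exact Or.inr ((hs.map Prod.snd).subset h)
  | dia φ ih =>
    intro B hφ p hp
    have hs : (pr φ).Sublist (pr (.dia φ)) := by
      rw [pr]
      exact (List.sublist_append_left _ _).cons _
    rw [ks] at hp
    rcases List.mem_cons.1 hp with rfl | hp
    · exact ⟨hφ, hs, Nat.add_le_add_left hs.length_le _, fun x hx => Or.inl hx,
        fun q hq => by rw [ks]; exact List.mem_cons_of_mem _ hq⟩
    · obtain ⟨h1, h2, h3, h4, h5⟩ := ih B hφ p hp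
      refine ⟨h1, h2.trans hs, h3.trans (Nat.add_le_add_left hs.length_le _), fun x hx => ?_,
        fun q hq => by rw [ks]; exact List.mem_cons_of_mem _ (h5 q hq)⟩
      rcases h4 x hx with h | h
      · exact Or.inl h
      · exact Or.inr ((hs.map Prod.snd).subset h)
  | box φ ih =>
    intro B hφ p hp
    have hs : (pr φ).Sublist (pr (.box φ)) := by
      rw [pr]
      exact (List.sublist_append_left _ _).cons _
    rw [ks] at hp
    rcases List.mem_cons.1 hp with rfl | hp
    · exact ⟨hφ, hs, Nat.add_le_add_left hs.length_le _, fun x hx => Or.inl hx,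
        fun q hq => by rw [ks]; exact List.mem_cons_of_mem _ hq⟩
    · obtain ⟨h1, h2, h3, h4, h5⟩ := ih B hφ p hp
      refine ⟨h1, h2.trans hs, h3.trans (Nat.add_le_add_left hs.length_le _), fun x hx => ?_,
        fun q hq => by rw [ks]; exact List.mem_cons_of_mem _ (h5 q hq)⟩
      rcases h4 x hx with h | h
      · exact Or.inl h
      · exact Or.inr ((hs.map Prod.snd).subset h)
  | bind x φ ih =>
    intro B hφ p hp
    have hs : (pr φ).Sublist (pr (.bind x φ)) := by
      rw [pr]
      exact List.sublist_cons_self _ _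
    rw [ks] at hp
    obtain ⟨h1, h2, h3, h4, h5⟩ := ih (x :: B) hφ p hp
    refine ⟨h1, h2.trans hs, ?_, fun y hy => ?_, fun q hq => by rw [ks]; exact h5 q hq⟩
    · rw [pr, List.length_cons]
      rw [List.length_cons] at h3
      omega
    · rcases h4 y hy with h | h
      · rcases List.mem_cons.1 h with rfl | h
        · right
          rw [pr, List.map_cons]
          exact List.mem_cons_self
        · exact Or.inl h
      · exact Or.inr ((hs.map Prod.snd).subset h)
  | atNom i φ ih => intro B h; exact h.elim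
  | atVar i φ ih => intro B h; exact h.elim

theorem length_ks (φ : Form 𝔅) : ∀ B : List ℕ, (ks φ B).length ≤ (pr φ).length := by
  induction φ with
  | prop i => intro B; simp [ks]
  | nom i => intro B; simp [ks]
  | var x => intro B; simp [ks]
  | app b φ ih =>
    intro B
    have h := length_flatten_ofFn _ (fun i => ks (φ i) B)
      (fun i => pr (φ i) ++ [((4, (i : ℕ)) : Tok)]) (fun i => by
        rw [List.length_append]
        have := ih i B
        omega)
    rw [ks, pr, List.length_cons, List.length_append]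
    omega
  | dia φ ih => intro B; have := ih B; simp [ks, pr]; omega
  | box φ ih => intro B; have := ih B; simp [ks, pr]; omega
  | bind x φ ih => intro B; have := ih (x :: B); simp [ks, pr]; omega
  | atNom i φ ih => intro B; simp [ks]
  | atVar x φ ih => intro B; simp [ks]

/-- the key of a formula with dead variables -/
def key (p : Form 𝔅 × List ℕ) : Key := (pr p.1, p.2)

theorem mem_key {JF : List (Form 𝔅 × List ℕ)} {ψ : Form 𝔅} {B : List ℕ} :
    (pr ψ, B) ∈ JF.map key ↔ (ψ, B) ∈ JF := by
  rw [List.mem_map]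
  constructor
  · rintro ⟨⟨χ, B'⟩, h1, h2⟩
    unfold key at h2
    rw [Prod.mk.injEq] at h2
    obtain ⟨h3, h4⟩ := h2
    have h5 := pr_inj h3
    simp only at h4 h5
    rw [← h4, ← h5]
    exact h1
  · intro h
    exact ⟨_, h, rfl⟩

theorem need_of (JF : List (Form 𝔅 × List ℕ)) (φ : Form 𝔅) : ∀ B : List ℕ, NoAt φ →
    (∀ p ∈ ks φ B, p ∈ JF) → Need (JF.map key) φ B := by
  induction φ with
  | prop i => intro B _ _; trivial
  | nom i => intro B _ _; trivial
  | var x => intro B _ _; trivial
  | app b φ ih =>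
    intro B hφ h i
    exact ih i B (hφ i) fun p hp => h p (mem_ks_app.2 ⟨i, hp⟩)
  | dia φ ih =>
    intro B hφ h
    exact mem_key.2 (h _ (by rw [ks]; exact List.mem_cons_self))
  | box φ ih =>
    intro B hφ h
    exact mem_key.2 (h _ (by rw [ks]; exact List.mem_cons_self))
  | bind x φ ih =>
    intro B hφ h
    exact ih (x :: B) hφ fun p hp => h p (by rw [ks]; exact hp)
  | atNom i φ ih => intro B h; exact h.elim
  | atVar i φ ih => intro B h; exact h.elim

theorem ce_congr {K : Model} {C : Set K.W} {r : Prop} {J : List Key}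
    (hJ : ∀ (ψ : Form 𝔅) (B : List ℕ), NoAt ψ → (pr ψ, B) ∈ J → Need J ψ B)
    {m m' : Form 𝔅 → List ℕ → Bool → Prop}
    (hm : ∀ (ψ : Form 𝔅) (B : List ℕ) (b : Bool), (pr ψ, B) ∈ J → (m ψ B b ↔ m' ψ B b)) :
    ∀ (φ : Form 𝔅), NoAt φ → ∀ B : List ℕ, Need J φ B → ∀ (g : ℕ → K.W) (w : K.W),
      ce K C r m φ B g w = ce K C r m' φ B g w := by
  intro φ
  induction φ with
  | prop i => intro _ B _ g w; rfl
  | nom i => intro _ B _ g w; rfl
  | var x => intro _ B _ g w; rfl
  | app b φ ih =>
    intro hφ B hN g w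
    rw [ce, ce]
    congr 1
    funext i
    exact ih i (hφ i) B (hN i) g w
  | dia φ ih =>
    intro hφ B hN g w
    have hN' : (pr φ, B) ∈ J := hN
    have h1 := hm φ B true hN'
    have h2 : ∀ v, ce K C r m φ B g v = ce K C r m' φ B g v := fun v =>
      ih hφ B (hJ φ B hφ hN') g v
    rw [Bool.eq_iff_iff]
    simp only [ce, decide_eq_true_eq, h1, h2]
  | box φ ih =>
    intro hφ B hN g w
    have hN' : (pr φ, B) ∈ J := hN
    have h1 := hm φ B false hN'
    have h2 : ∀ v, ce K C r m φ B g v = ce K C r m' φ B g v := fun v =>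
      ih hφ B (hJ φ B hφ hN') g v
    rw [Bool.eq_iff_iff]
    simp only [ce, decide_eq_true_eq, h1, h2]
  | bind x φ ih =>
    intro hφ B hN g w
    rw [ce, ce]
    exact ih hφ (x :: B) hN _ w
  | atNom i φ ih => intro h; exact h.elim
  | atVar i φ ih => intro h; exact h.elim

/-! ### An isolated state -/

/-- the relation with one more state -/
def RO {W : Type} (R : W → W → Prop) : Option W → Option W → Prop
  | some a, some b => R a b
  | _, _ => False

def VO {W : Type} (V : ℕ → W → Prop) (i : ℕ) : Option W → Prop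
  | some a => V i a
  | none => False

def KO (K : Model) : Model := ⟨Option K.W, RO K.R, VO K.V, fun i => some (K.nm i)⟩

def inS (K : Model) (a : K.W) : (KO K).W := (some a : Option K.W)

def oo (K : Model) : (KO K).W := (none : Option K.W)

theorem inS_inj {K : Model} {a b : K.W} : inS K a = inS K b ↔ a = b := Option.some_inj

theorem W_cases {K : Model} (v : (KO K).W) : v = oo K ∨ ∃ a, v = inS K a := by
  have h : ∀ v : Option K.W, v = none ∨ ∃ a, v = some a := by
    intro v
    cases v with
    | none => exact Or.inl rfl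
    | some a => exact Or.inr ⟨a, rfl⟩
  exact h v

theorem RO_oo_left {K : Model} (v : (KO K).W) : ¬ (KO K).R (oo K) v := by
  rcases W_cases v with rfl | ⟨a, rfl⟩ <;> exact fun h => h

theorem RO_oo_right {K : Model} (v : (KO K).W) : ¬ (KO K).R v (oo K) := by
  rcases W_cases v with rfl | ⟨a, rfl⟩ <;> exact fun h => h

theorem RO_in {K : Model} (a b : K.W) : (KO K).R (inS K a) (inS K b) ↔ K.R a b := Iff.rfl

theorem tv_KO (K : Model) (φ : Form 𝔅) : ∀ (g : ℕ → K.W) (w : K.W),
    tv (KO K) φ (fun x => inS K (g x)) (inS K w) = tv K φ g w := by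
  induction φ with
  | prop i =>
    intro g w
    rw [Bool.eq_iff_iff, tv_prop, tv_prop]
    exact Iff.rfl
  | nom i =>
    intro g w
    rw [Bool.eq_iff_iff, tv_nom, tv_nom]
    exact inS_inj
  | var x =>
    intro g w
    rw [Bool.eq_iff_iff, tv_var, tv_var]
    exact inS_inj
  | app b φ ih =>
    intro g w
    rw [tv, tv]
    congr 1
    funext i
    exact ih i g w
  | dia φ ih =>
    intro g w
    rw [Bool.eq_iff_iff, tv_dia, tv_dia]
    constructor
    · rintro ⟨v, h1, h2⟩
      rcases W_cases v with rfl | ⟨a, rfl⟩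
      · exact (RO_oo_right _ h1).elim
      · exact ⟨a, h1, by rw [← ih g a]; exact h2⟩
    · rintro ⟨v, h1, h2⟩
      exact ⟨inS K v, h1, by rw [ih g v]; exact h2⟩
  | box φ ih =>
    intro g w
    rw [Bool.eq_iff_iff, tv_box, tv_box]
    constructor
    · intro h v h1
      rw [← ih g v]
      exact h (inS K v) h1
    · intro h v h1
      rcases W_cases v with rfl | ⟨a, rfl⟩
      · exact (RO_oo_right _ h1).elim
      · rw [ih g a]
        exact h a h1
  | bind x φ ih =>
    intro g w
    rw [tv_bind, tv_bind, ← ih]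
    congr 1
    funext y
    by_cases h : y = x
    · subst h
      rw [Function.update_self, Function.update_self]
    · rw [Function.update_of_ne h, Function.update_of_ne h]
  | atNom i φ ih =>
    intro g w
    rw [tv_atNom, tv_atNom]
    exact ih g (K.nm i)
  | atVar x φ ih =>
    intro g w
    rw [tv_atVar, tv_atVar]
    exact ih g (g x)

theorem TM_KO (K : Model) (hK : ∀ u v w, K.R u v → K.R v w → K.R u w) (g : ℕ → K.W) :
    TM (KO K) (fun x => inS K (g x)) (oo K) where
  tr := by
    intro u v w h1 h2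
    rcases W_cases u with rfl | ⟨a, rfl⟩
    · exact (RO_oo_left _ h1).elim
    rcases W_cases v with rfl | ⟨b, rfl⟩
    · exact (RO_oo_right _ h1).elim
    rcases W_cases w with rfl | ⟨c, rfl⟩
    · exact (RO_oo_right _ h2).elim
    exact hK a b c h1 h2
  io := fun v => ⟨RO_oo_left v, RO_oo_right v⟩
  nm := fun i h => Option.some_ne_none _ h
  fr := fun x h => Option.some_ne_none _ h

/-! ### Clusters -/

section clusters

variable {K : Model}

theorem clu_symm {a b : K.W} (h : b ∈ clu K a) : a ∈ clu K b := by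
  rcases h with h | h
  · exact Or.inl h.symm
  · exact Or.inr ⟨h.2, h.1⟩

theorem clu_trans (htr : ∀ u v w, K.R u v → K.R v w → K.R u w) {a b c : K.W} (h : b ∈ clu K a) (h' : c ∈ clu K b) : c ∈ clu K a := by
  rcases h with h | h
  · rw [h] at h'
    exact h'
  · rcases h' with h' | h'
    · rw [h']
      exact Or.inr h
    · exact Or.inr ⟨htr _ _ _ h.1 h'.1, htr _ _ _ h'.2 h.2⟩

/-- representatives -/
theorem reps (w0 : K.W) (l : List K.W) : ∃ RS : List K.W, RS.head? = some w0 ∧
    RS.length ≤ 1 + l.length ∧ RS.Pairwise (fun a b => b ∉ clu K a) ∧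
    (∀ x ∈ l, ∃ a ∈ RS, x ∈ clu K a) ∧ ∀ a ∈ RS, a = w0 ∨ a ∈ l := by
  induction l with
  | nil => exact ⟨[w0], rfl, le_rfl, List.pairwise_singleton _ _, by simp, by simp⟩
  | cons x l ih =>
    obtain ⟨RS, h1, h2, h3, h4, h5⟩ := ih
    by_cases hx : ∃ a ∈ RS, x ∈ clu K a
    · refine ⟨RS, h1, by rw [List.length_cons]; omega, h3, ?_, ?_⟩
      · intro y hy
        rcases List.mem_cons.1 hy with rfl | hy
        · exact hx
        · exact h4 y hy
      · intro a ha
        rcases h5 a ha with h | h
        · exact Or.inl h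
        · exact Or.inr (List.mem_cons_of_mem _ h)
    · push Not at hx
      refine ⟨RS ++ [x], ?_, ?_, ?_, ?_, ?_⟩
      · cases RS with
        | nil => simp at h1
        | cons a t => simpa using h1
      · rw [List.length_append, List.length_cons, List.length_cons, List.length_nil]
        omega
      · rw [List.pairwise_append]
        refine ⟨h3, List.pairwise_singleton _ _, fun a ha b hb => ?_⟩
        rw [List.mem_singleton] at hb
        rw [hb]
        exact hx a ha
      · intro y hy
        rcases List.mem_cons.1 hy with rfl | hy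
        · exact ⟨y, List.mem_append_right _ (List.mem_singleton_self _), Or.inl rfl⟩
        · obtain ⟨a, ha, hya⟩ := h4 y hy
          exact ⟨a, List.mem_append_left _ ha, hya⟩
      · intro a ha
        rcases List.mem_append.1 ha with h | h
        · rcases h5 a h with h | h
          · exact Or.inl h
          · exact Or.inr (List.mem_cons_of_mem _ h)
        · rw [List.mem_singleton] at h
          rw [h]
          exact Or.inr List.mem_cons_self

end clusters

end Pool.Agent.Helper83.TR
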