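import Pool.Agent.Helper83.TR.C3

set_option autoImplicit false

/-!
# Piece C3 (project TR of helper75): certificates from models, second part
-/

namespace Pool.Agent.Helper83.TR

open Pool.Agent.NPC Pool.Agent.H75C.HY Pool.Agent.H75C.HY.TR

variable {𝔅 : Base}

open Classical in
/-- the list of the flags at a state -/
noncomputable def Flg (K : Model) (g0 : ℕ → K.W) (o : K.W) (JF : List (Form 𝔅 × List ℕ))
    (s : K.W) : Fls :=
  ((JF.map (fun p => (p, true)) ++ JF.map (fun p => (p, false))).filter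
    (fun q => decide (upf K g0 o s q.1.1 q.1.2 q.2))).map (fun q => (key q.1, q.2))

section flags

variable {K : Model} {g0 : ℕ → K.W} {o : K.W} {JF : List (Form 𝔅 × List ℕ)} {s : K.W}

theorem mem_Flg {f : Key × Bool} : f ∈ Flg K g0 o JF s ↔
    ∃ (ψ : Form 𝔅) (B : List ℕ) (b : Bool), f = ((pr ψ, B), b) ∧ (ψ, B) ∈ JF ∧
      upf K g0 o s ψ B b := by
  unfold Flg
  rw [List.mem_map]
  constructor
  · rintro ⟨⟨⟨ψ, B⟩, b⟩, h1, rfl⟩
    rw [List.mem_filter, List.mem_append, List.mem_map, List.mem_map] at h1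
    simp only [decide_eq_true_eq] at h1
    obtain ⟨h1, h2⟩ := h1
    refine ⟨ψ, B, b, rfl, ?_, h2⟩
    rcases h1 with ⟨p, hp, h3⟩ | ⟨p, hp, h3⟩
    · rw [Prod.mk.injEq] at h3
      rw [← h3.1]
      exact hp
    · rw [Prod.mk.injEq] at h3
      rw [← h3.1]
      exact hp
  · rintro ⟨ψ, B, b, rfl, h1, h2⟩
    refine ⟨((ψ, B), b), ?_, rfl⟩
    rw [List.mem_filter, List.mem_append, List.mem_map, List.mem_map]
    simp only [decide_eq_true_eq]
    refine ⟨?_, h2⟩
    cases b with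
    | true => exact Or.inl ⟨_, h1, rfl⟩
    | false => exact Or.inr ⟨_, h1, rfl⟩

theorem mem_Flg' {ψ : Form 𝔅} {B : List ℕ} {b : Bool} : ((pr ψ, B), b) ∈ Flg K g0 o JF s ↔
    (ψ, B) ∈ JF ∧ upf K g0 o s ψ B b := by
  rw [mem_Flg]
  constructor
  · rintro ⟨χ, B', b', h, h1, h2⟩
    rw [Prod.mk.injEq, Prod.mk.injEq] at h
    obtain ⟨⟨h3, h4⟩, h5⟩ := h
    rw [pr_inj h3, h4, h5]
    exact ⟨h1, h2⟩
  · rintro ⟨h1, h2⟩
    exact ⟨ψ, B, b, rfl, h1, h2⟩

theorem length_Flg : (Flg K g0 o JF s).length ≤ 2 * JF.length := by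
  unfold Flg
  rw [List.length_map]
  refine (List.length_filter_le _ _).trans ?_
  rw [List.length_append, List.length_map, List.length_map]
  omega

end flags

open Classical in
/-- the special clusters strictly above `s` -/
noncomputable def Zs (K : Model) (o : K.W) (RS : List K.W) (s : K.W) : List ℕ :=
  (List.range RS.length).filter fun i => decide (K.R s (RS.getD i o) ∧ ¬ K.R (RS.getD i o) s)

theorem mem_Zs {K : Model} {o : K.W} {RS : List K.W} {s : K.W} {i : ℕ} :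
    i ∈ Zs K o RS s ↔ i < RS.length ∧ K.R s (RS.getD i o) ∧ ¬ K.R (RS.getD i o) s := by
  unfold Zs
  rw [List.mem_filter, List.mem_range]
  simp only [decide_eq_true_eq]

noncomputable def SCo (K : Model) (g0 : ℕ → K.W) (o : K.W) (JF : List (Form 𝔅 × List ℕ))
    (RS : List K.W) (cc : K.W → Cl) : List Sp :=
  RS.map fun s => (cc s, Zs K o RS s, Flg K g0 o JF s)

/-- the data -/
structure Dta (K : Model) (g0 : ℕ → K.W) (o : K.W) (JF : List (Form 𝔅 × List ℕ))
    (RS : List K.W) (cc : K.W → Cl) (φ : Form 𝔅) : Prop where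
  tm : TM K g0 o
  nφ : NoAt φ
  noJ : ∀ p ∈ JF, NoAt p.1
  clJ : ∀ p ∈ JF, ∀ q ∈ ks p.1 p.2, q ∈ JF
  clφ : ∀ q ∈ ks φ [], q ∈ JF
  rso : ∀ s ∈ RS, s ≠ o
  rsp : RS.Pairwise (fun a b => b ∉ clu K a)
  cok : ∀ s, s ≠ o → Clok (cc s)
  kvs : ∀ s, s ≠ o → ∀ p ∈ (φ, []) :: JF, ∀ b : Bool,
    (∃ u < N (cc s), kv (cc s) (Flg K g0 o JF s) p.1 p.2 u = b) ↔
      ∃ v ∈ clu K s, tv K p.1 (dg g0 o p.2) v = b

section main

variable {K : Model} {g0 : ℕ → K.W} {o : K.W} {JF : List (Form 𝔅 × List ℕ)} {RS : List K.W}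
  {cc : K.W → Cl} {φ : Form 𝔅}

theorem sp_eq {i : ℕ} (hi : i < RS.length) : sp (SCo K g0 o JF RS cc) i =
    (cc (RS.getD i o), Zs K o RS (RS.getD i o), Flg K g0 o JF (RS.getD i o)) := by
  unfold sp SCo
  rw [List.getD_eq_getElem _ _ (by rw [List.length_map]; exact hi), List.getElem_map,
    List.getD_eq_getElem _ _ hi]

theorem cl_eq {i : ℕ} (hi : i < RS.length) :
    cl (SCo K g0 o JF RS cc) i = cc (RS.getD i o) := by
  unfold cl
  rw [sp_eq hi]

theorem ab_eq {i : ℕ} (hi : i < RS.length) :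
    ab (SCo K g0 o JF RS cc) i = Zs K o RS (RS.getD i o) := by
  unfold ab
  rw [sp_eq hi]

theorem fl_eq {i : ℕ} (hi : i < RS.length) :
    fl (SCo K g0 o JF RS cc) i = Flg K g0 o JF (RS.getD i o) := by
  unfold fl
  rw [sp_eq hi]

theorem up_clu (tm : TM K g0 o) {s t v : K.W} (h : K.R s t ∧ ¬ K.R t s) (hv : v ∈ clu K t) :
    K.R s v ∧ ¬ K.R v s := by
  rcases hv with hv | hv
  · rw [hv]
    exact h
  · exact ⟨tm.tr _ _ _ h.1 hv.1, fun h1 => h.2 (tm.tr _ _ _ hv.1 h1)⟩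

theorem up_trans (tm : TM K g0 o) {s t v : K.W} (h : K.R s t ∧ ¬ K.R t s)
    (h' : K.R t v ∧ ¬ K.R v t) : K.R s v ∧ ¬ K.R v s :=
  ⟨tm.tr _ _ _ h.1 h'.1, fun h1 => h'.2 (tm.tr _ _ _ h1 h.1)⟩

theorem up_ne (tm : TM K g0 o) {s t : K.W} (h : K.R s t ∧ ¬ K.R t s) : t ≠ o := by
  rintro rfl
  exact (tm.io s).2 h.1

theorem Flg_mono (tm : TM K g0 o) {s t : K.W} (h : K.R s t ∧ ¬ K.R t s) :
    ∀ f ∈ Flg K g0 o JF t, f ∈ Flg K g0 o JF s := by
  intro f hf
  obtain ⟨ψ, B, b, rfl, h1, u, h2, h3, h4⟩ := mem_Flg.1 hf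
  have h5 := up_trans tm h ⟨h2, h3⟩
  exact mem_Flg'.2 ⟨h1, u, h5.1, h5.2, h4⟩

theorem Zs_mono (tm : TM K g0 o) {s t : K.W} (h : K.R s t ∧ ¬ K.R t s) :
    ∀ i ∈ Zs K o RS t, i ∈ Zs K o RS s := by
  intro i hi
  rw [mem_Zs] at hi ⊢
  exact ⟨hi.1, up_trans tm h hi.2⟩

theorem Loc_of (D : Dta K g0 o JF RS cc φ) {s t : K.W} (h : K.R s t ∧ ¬ K.R t s) :
    Loc 𝔅 (JF.map key) (cc t) (Flg K g0 o JF t) (Flg K g0 o JF s) := by
  intro ψ B b _ hJ hf u hu hk
  have hJ' := mem_key.1 hJ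
  obtain ⟨v, hv, h1⟩ := (D.kvs t (up_ne D.tm h) (ψ, B) (List.mem_cons_of_mem _ hJ') b).1 ⟨u, hu, hk⟩
  have h2 := up_clu D.tm h hv
  exact hf (mem_Flg'.2 ⟨hJ', v, h2.1, h2.2, h1⟩)

theorem OKc_of (D : Dta K g0 o JF RS cc φ) (s : K.W) :
    OKc 𝔅 (JF.map key) (SCo K g0 o JF RS cc) (Zs K o RS s) (Flg K g0 o JF s) := by
  intro i hi
  rw [mem_Zs] at hi
  obtain ⟨hi, h⟩ := hi
  refine ⟨by unfold SCo; rw [List.length_map]; exact hi, ?_, ?_, ?_⟩
  · rw [ab_eq hi]
    exact Zs_mono D.tm h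
  · rw [fl_eq hi]
    exact Flg_mono D.tm h
  · rw [cl_eq hi, fl_eq hi]
    exact Loc_of D h

theorem Gd_of (D : Dta K g0 o JF RS cc φ) (bd : Cl → List ℕ → Fls → Prop)
    (hbd : ∀ u, u ≠ o → bd (cc u) (Zs K o RS u) (Flg K g0 o JF u))
    (hemp : ∀ u, u ≠ o → (∀ s ∈ RS, u ∉ clu K s) → (cc u).2.1.2.2 = [] ∧ (cc u).2.2 = []) :
    ∀ (n : ℕ) (s : K.W), (Zs K o RS s).toFinset.card + (Flg K g0 o JF s).toFinset.card < n →
      Gd 𝔅 bd (JF.map key) (SCo K g0 o JF RS cc) n (Zs K o RS s) (Flg K g0 o JF s) := by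
  intro n
  induction n with
  | zero => intro s h; omega
  | succ n ih =>
    intro s hs ψ B b hψ hJ hf
    have hJ' := mem_key.1 hJ
    obtain ⟨_, u, h1, h2, h3⟩ := mem_Flg'.1 hf
    have hu : u ≠ o := up_ne D.tm ⟨h1, h2⟩
    by_cases hsp : ∃ t ∈ RS, u ∈ clu K t
    · left
      obtain ⟨t, ht, hut⟩ := hsp
      obtain ⟨i, hi, rfl⟩ := List.getElem_of_mem ht
      have hgd : RS.getD i o = RS[i] := List.getD_eq_getElem _ _ hi
      have h4 := up_clu D.tm (s := s) (t := u) (v := RS[i]) ⟨h1, h2⟩ (clu_symm hut)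
      refine ⟨i, ?_, ?_⟩
      · rw [mem_Zs, hgd]
        exact ⟨hi, h4⟩
      · rw [cl_eq hi, fl_eq hi, hgd]
        exact (D.kvs _ (D.rso _ ht) (ψ, B) (List.mem_cons_of_mem _ hJ') b).2 ⟨u, hut, h3⟩
    · right
      push Not at hsp
      obtain ⟨e1, e2⟩ := hemp u hu hsp
      refine ⟨cc u, Zs K o RS u, Flg K g0 o JF u, hbd u hu, D.cok u hu, e1, e2,
        Zs_mono D.tm ⟨h1, h2⟩, Flg_mono D.tm ⟨h1, h2⟩, OKc_of D u, Loc_of D ⟨h1, h2⟩, ?_, ?_⟩
      · exact (D.kvs u hu (ψ, B) (List.mem_cons_of_mem _ hJ') b).2 ⟨u, Or.inl rfl, h3⟩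
      · by_cases hall : (∀ z ∈ Zs K o RS s, z ∈ Zs K o RS u) ∧
            ∀ f ∈ Flg K g0 o JF s, f ∈ Flg K g0 o JF u
        · exact Or.inl hall
        · right
          refine ih u ?_
          have z1 : (Zs K o RS u).toFinset ⊆ (Zs K o RS s).toFinset := by
            intro i hi
            rw [List.mem_toFinset] at hi ⊢
            exact Zs_mono D.tm ⟨h1, h2⟩ i hi
          have z2 : (Flg K g0 o JF u).toFinset ⊆ (Flg K g0 o JF s).toFinset := by
            intro i hi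
            rw [List.mem_toFinset] at hi ⊢
            exact Flg_mono D.tm ⟨h1, h2⟩ i hi
          have c1 := Finset.card_le_card z1
          have c2 := Finset.card_le_card z2
          by_cases hz : ∀ z ∈ Zs K o RS s, z ∈ Zs K o RS u
          · have hfl : ¬ ∀ f ∈ Flg K g0 o JF s, f ∈ Flg K g0 o JF u := fun h => hall ⟨hz, h⟩
            push Not at hfl
            obtain ⟨f, hf1, hf2⟩ := hfl
            have c3 : (Flg K g0 o JF u).toFinset.card < (Flg K g0 o JF s).toFinset.card := by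
              refine Finset.card_lt_card ⟨z2, fun h => hf2 ?_⟩
              have := h (List.mem_toFinset.2 hf1)
              exact List.mem_toFinset.1 this
            omega
          · push Not at hz
            obtain ⟨f, hf1, hf2⟩ := hz
            have c3 : (Zs K o RS u).toFinset.card < (Zs K o RS s).toFinset.card := by
              refine Finset.card_lt_card ⟨z1, fun h => hf2 ?_⟩
              have := h (List.mem_toFinset.2 hf1)
              exact List.mem_toFinset.1 this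
            omega

/-- the certificate -/
theorem cert_of (D : Dta K g0 o JF RS cc φ) (bd : Cl → List ℕ → Fls → Prop)
    (hbd : ∀ u, u ≠ o → bd (cc u) (Zs K o RS u) (Flg K g0 o JF u))
    (hemp : ∀ u, u ≠ o → (∀ s ∈ RS, u ∉ clu K s) → (cc u).2.1.2.2 = [] ∧ (cc u).2.2 = [])
    (hnm : ∀ u, u ≠ o → ∀ i, lk (cc u).2.1.2.2 (N (cc u)) i < N (cc u) → K.nm i ∈ clu K u)
    (hfr : ∀ u, u ≠ o → ∀ x, lk (cc u).2.2 (N (cc u)) x < N (cc u) → g0 x ∈ clu K u)
    (L : ℕ) (hL : RS.length + 2 * JF.length < L) {w0 : K.W} (hw0 : RS.head? = some w0)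
    (hval : tv K φ g0 w0 = true) :
    ∃ v0, IsCert bd (JF.map key) (SCo K g0 o JF RS cc) L φ v0 := by
  have hlen : (SCo K g0 o JF RS cc).length = RS.length := by unfold SCo; rw [List.length_map]
  have h0 : 0 < RS.length := by
    cases RS with
    | nil => simp at hw0
    | cons a t => simp
  have hg0 : RS.getD 0 o = w0 := by
    cases RS with
    | nil => simp at hw0
    | cons a t =>
      rw [List.head?_cons, Option.some_inj] at hw0
      rw [← hw0]
      rfl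
  have hne : ∀ i, i < RS.length → RS.getD i o ≠ o := by
    intro i hi
    rw [List.getD_eq_getElem _ _ hi]
    exact D.rso _ (List.getElem_mem _)
  have hpw : ∀ j < RS.length, ∀ j' < RS.length, j ≠ j' → RS.getD j' o ∉ clu K (RS.getD j o) := by
    intro j hj j' hj' hjj
    rw [List.getD_eq_getElem _ _ hj, List.getD_eq_getElem _ _ hj']
    rcases lt_or_gt_of_ne hjj with h | h
    · exact List.pairwise_iff_getElem.1 D.rsp j j' hj hj' h
    · intro h1
      exact List.pairwise_iff_getElem.1 D.rsp j' j hj' hj h (clu_symm h1)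
  have hcard : ∀ s : K.W, (Zs K o RS s).toFinset.card + (Flg K g0 o JF s).toFinset.card < L := by
    intro s
    have a1 := List.toFinset_card_le (Zs K o RS s)
    have a2 := List.toFinset_card_le (Flg K g0 o JF s)
    have a3 : (Zs K o RS s).length ≤ RS.length := by
      unfold Zs
      refine (List.length_filter_le _ _).trans ?_
      rw [List.length_range]
    have a4 := length_Flg (K := K) (g0 := g0) (o := o) (JF := JF) (s := s)
    omega
  obtain ⟨v0, hv0, hv1⟩ := (D.kvs (RS.getD 0 o) (hne 0 h0) (φ, []) List.mem_cons_self true).2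
    ⟨RS.getD 0 o, Or.inl rfl, by
      have e : dg g0 o [] = g0 := by
        funext x
        unfold dg
        simp
      rw [hg0]
      show tv K φ (dg g0 o []) w0 = true
      rw [e]
      exact hval⟩
  refine ⟨v0, ?_⟩
  constructor
  · rw [hlen]; exact h0
  · exact need_of JF φ [] D.nφ D.clφ
  · intro ψ B hψ hJ
    exact need_of JF ψ B hψ (D.clJ _ (mem_key.1 hJ))
  · rw [cl_eq h0]; exact hv0
  · rw [cl_eq h0, fl_eq h0]; exact hv1
  · intro j hj
    rw [hlen] at hj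
    rw [ab_eq hj, mem_Zs]
    rintro ⟨_, h1, h2⟩
    exact h2 h1
  · intro j hj
    rw [hlen] at hj
    rw [cl_eq hj]
    exact D.cok _ (hne j hj)
  · intro j hj
    rw [hlen] at hj
    rw [ab_eq hj, fl_eq hj]
    exact OKc_of D _
  · intro j hj
    rw [hlen] at hj
    rw [ab_eq hj, fl_eq hj]
    exact Gd_of D bd hbd hemp L _ (hcard _)
  · intro j hj j' hj' hjj i
    rw [hlen] at hj hj'
    rw [cl_eq hj, cl_eq hj']
    rintro ⟨h1, h2⟩
    have a1 := hnm _ (hne j hj) i h1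
    have a2 := hnm _ (hne j' hj') i h2
    exact hpw j hj j' hj' hjj (clu_trans D.tm.tr a1 (clu_symm a2))
  · intro j hj j' hj' hjj i
    rw [hlen] at hj hj'
    rw [cl_eq hj, cl_eq hj']
    rintro ⟨h1, h2⟩
    have a1 := hfr _ (hne j hj) i h1
    have a2 := hfr _ (hne j' hj') i h2
    exact hpw j hj j' hj' hjj (clu_trans D.tm.tr a1 (clu_symm a2))

end main

end Pool.Agent.Helper83.TR
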